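import Pool.Agent.Results.MP_15d263_co.Aligned

set_option autoImplicit false

/-!
Without the requirement that the squares lie on the grid every two-square tile admits an idiomeric
tiling: in a sheared square tiling the parity obstruction disappears.
-/

namespace Pool.Agent.Results.MP_15d263_co.AllPairs

open Pool.Agent.Results.MP_15d263_co.Aligned

/-- The reflection exchanging the two coordinates. -/
noncomputable def swp : Plane ≃ᵢ Plane :=
  (LinearIsometryEquiv.piLpCongrLeft 2 ℝ ℝ (Equiv.swap (0 : Fin 2) 1)).toIsometryEquiv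

theorem swp_zero (z : Plane) : swp z 0 = z 1 := by
  simp [swp, LinearIsometryEquiv.piLpCongrLeft_apply, Equiv.piCongrLeft']

theorem swp_one (z : Plane) : swp z 1 = z 0 := by
  simp [swp, LinearIsometryEquiv.piLpCongrLeft_apply, Equiv.piCongrLeft']

theorem swp_swp (z : Plane) : swp (swp z) = z :=
  ext2 (by rw [swp_zero, swp_one]) (by rw [swp_one, swp_zero])

theorem image_swp (c : Plane) : swp '' sq c = sq (swp c) := by
  ext z
  constructor
  · rintro ⟨w, ⟨h0, h1⟩, rfl⟩
    refine ⟨?_, ?_⟩
    · rw [swp_zero, swp_zero]; exact h1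
    · rw [swp_one, swp_one]; exact h0
  · rintro ⟨h0, h1⟩
    refine ⟨swp z, ⟨?_, ?_⟩, swp_swp z⟩
    · rw [swp_zero]; rw [swp_one] at h1; exact h1
    · rw [swp_one]; rw [swp_zero] at h0; exact h0

theorem swp_T (x y : ℤ) : swp '' T x y = T y x := by
  rw [T, T, Set.image_union, image_swp, image_swp]
  congr 2
  · exact ext2 (by simp [swp_zero]) (by simp [swp_one])
  · exact ext2 (by simp [swp_zero]) (by simp [swp_one])

theorem result (x y : ℤ) (hxy : 2 ≤ max |x| |y|) :
    ∃ F : Set (Set Plane), IsTiling F ∧ Monohedral F (T x y) ∧ Idiomeric F := by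
  by_cases hy : y = 0
  · subst hy
    have hx : (x : ℝ) ≠ 0 := by
      intro h
      have h' : x = 0 := by exact_mod_cast h
      subst h'
      simp at hxy
    obtain ⟨h1, h2, h3⟩ := construction 0 x (by rwa [max_comm]) (-1 / x) 1 odd_one (by
      push_cast
      field_simp
      norm_num)
    refine ⟨_, h1, ?_, h3⟩
    intro t ht
    obtain ⟨g, hg⟩ := h2 t ht
    refine ⟨swp.trans g, ?_⟩
    rw [← hg, ← swp_T x 0, Set.image_image]
    rfl
  · have hy' : (y : ℝ) ≠ 0 := by exact_mod_cast hy
    obtain ⟨h1, h2, h3⟩ := construction x y hxy ((x - 1) / y) 1 odd_one (by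
      push_cast
      field_simp
      ring)
    exact ⟨_, h1, h2, h3⟩

end Pool.Agent.Results.MP_15d263_co.AllPairs
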